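import Pool.Agent.Helper71.CK.Goals

/-!
# Packet CK-SHORT (MP_d34459_al)

Products of conjugates of letters have cheap noncrossing partitions.
-/

set_option autoImplicit false

namespace Pool.Agent.Helper68.CK

open Pool.Agent.CK

lemma val_nil : val [] = 1 := by simp [val]

lemma val_append (L L' : List (Fin 2 × ℤ)) : val (L ++ L') = val L * val L' := by
  simp [val]

lemma val_single (g : Fin 2) (x : ℤ) : val [(g, x)] = FreeGroup.of g ^ x := by
  simp [val]

lemma inv_cons (p : Fin 2 × ℤ) (L : List (Fin 2 × ℤ)) :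
    inv (p :: L) = inv L ++ [(p.1, -p.2)] := by
  simp [inv]

lemma val_inv (L : List (Fin 2 × ℤ)) : val (inv L) = (val L)⁻¹ := by
  induction L with
  | nil => simp [val, inv]
  | cons p L ih =>
    rw [inv_cons, val_append, ih]
    have h : p :: L = [p] ++ L := rfl
    rw [h, val_append, mul_inv_rev]
    congr 1
    rcases p with ⟨g, x⟩
    rw [val_single, val_single, zpow_neg]

lemma cost_append (B B' : List (Fin 2 × List ℤ)) : cost (B ++ B') = cost B + cost B' := by
  simp [cost]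

/-- (a) conjugation does not change the cost -/
lemma conj_nc (h1 : S_NCOPS) (w M : List (Fin 2 × ℤ)) (B : List (Fin 2 × List ℤ))
    (h : NC M B) : ∃ B', NC (w ++ M ++ inv w) B' ∧ cost B' = cost B := by
  induction w with
  | nil => exact ⟨B, by simpa [inv] using h, rfl⟩
  | cons p w ih =>
    obtain ⟨B₁, hB₁, hc⟩ := ih
    rcases p with ⟨g, x⟩
    have h0 : NC ([(g, x)] ++ [(g, -x)]) [(g, [x, -x])] := by
      have h := NC.ins g [] [x, -x] [] [] (by simpa using NC.nil)
      simpa [bl] using h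
    have h2 := h1.2.2 [(g, x)] [(g, -x)] (w ++ M ++ inv w) _ _ h0 hB₁
    refine ⟨B₁ ++ [(g, [x, -x])], ?_, ?_⟩
    · rw [inv_cons]
      simpa using h2
    · rw [cost_append, hc]
      simp [cost]

/-- every element is the value of a syllable word -/
lemma exists_val (g : FreeGroup (Fin 2)) : ∃ w : List (Fin 2 × ℤ), val w = g := by
  induction g using FreeGroup.induction_on with
  | C1 => exact ⟨[], val_nil⟩
  | of x => exact ⟨[(x, 1)], by rw [val_single, zpow_one]⟩
  | inv_of x _ => exact ⟨[(x, -1)], by rw [val_single, zpow_neg, zpow_one]⟩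
  | mul x y hx hy =>
    obtain ⟨u, hu⟩ := hx
    obtain ⟨v, hv⟩ := hy
    exact ⟨u ++ v, by rw [val_append, hu, hv]⟩

/-- a single conjugate of a letter -/
lemma conj_letter (h1 : S_NCOPS) (g : FreeGroup (Fin 2)) (i : Fin 2) (e : ℤ)
    (he : e.natAbs = 1) :
    ∃ L : List (Fin 2 × ℤ), ∃ B, NC L B ∧ cost B = 1 ∧
      val L = g * FreeGroup.of i ^ e * g⁻¹ := by
  obtain ⟨w, hw⟩ := exists_val g
  have h0 : NC [(i, e)] [(i, [e])] := by
    have h := NC.ins i [] [e] [] [] (by simpa using NC.nil)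
    simpa [bl] using h
  obtain ⟨B, hB, hc⟩ := conj_nc h1 w _ _ h0
  refine ⟨w ++ [(i, e)] ++ inv w, B, hB, ?_, ?_⟩
  · rw [hc]
    simp [cost, he]
  · rw [val_append, val_append, val_inv, val_single, hw]

/-- products of conjugates of letters -/
lemma prod_conj (h1 : S_NCOPS) (Ls : List (FreeGroup (Fin 2)))
    (h : ∀ x ∈ Ls, ∃ g : FreeGroup (Fin 2), ∃ i : Fin 2,
      x = g * FreeGroup.of i * g⁻¹ ∨ x = g * (FreeGroup.of i)⁻¹ * g⁻¹) :
    ∃ L : List (Fin 2 × ℤ), ∃ B, NC L B ∧ cost B = Ls.length ∧ val L = Ls.prod := by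
  induction Ls with
  | nil => exact ⟨[], [], NC.nil, by simp [cost], by simp [val]⟩
  | cons x Ls ih =>
    obtain ⟨L, B, hB, hc, hv⟩ := ih (fun y hy => h y (List.mem_cons_of_mem _ hy))
    obtain ⟨g, i, hx⟩ := h x List.mem_cons_self
    have hx' : ∃ e : ℤ, e.natAbs = 1 ∧ x = g * FreeGroup.of i ^ e * g⁻¹ := by
      rcases hx with hx | hx
      · exact ⟨1, rfl, by rw [hx, zpow_one]⟩
      · exact ⟨-1, rfl, by rw [hx, zpow_neg, zpow_one]⟩
    obtain ⟨e, he, hxe⟩ := hx'
    obtain ⟨L₀, B₀, hB₀, hc₀, hv₀⟩ := conj_letter h1 g i e he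
    have h3 := h1.2.2 [] L L₀ B B₀ (by simpa using hB) hB₀
    refine ⟨L₀ ++ L, B₀ ++ B, by simpa using h3, ?_, ?_⟩
    · rw [cost_append, hc, hc₀, List.length_cons, add_comm]
    · rw [val_append, hv, hv₀, hxe, List.prod_cons]

/-- **Packet CK-SHORT.** -/
theorem short (h1 : S_NCOPS) (h2 : S_INVAR) : S_SHORT := by
  intro N L hL
  obtain ⟨Ls, hlen, hconj, hprod⟩ := hL
  obtain ⟨L', B, hB, hc, hv⟩ := prod_conj h1 Ls hconj
  exact h2 L' L (hv.trans hprod) N ⟨B, hB, by rw [hc]; exact hlen⟩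

end Pool.Agent.Helper68.CK
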